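import Pool.Agent.helper18.HG.Spec

/-!
# Row ORD of project hg
-/

set_option autoImplicit false

namespace Pool.Agent.helper18.HG

open Finset

theorem ORD : ORD_stmt := by
  intro F T hF hT hv0
  obtain ⟨v₀, hS, -⟩ := hv0
  obtain ⟨e, he⟩ : ∃ e : ℕ → ℂ, e = fun n => ((PowerSeries.coeff n F : ℤ) : ℂ) := ⟨_, rfl⟩
  have hex : ∃ n, PowerSeries.coeff n F ≠ 0 := by
    by_contra hcon
    push Not at hcon
    exact hF (PowerSeries.ext fun n => by rw [hcon n]; simp)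
  classical
  obtain ⟨T', hT'⟩ : ∃ T', T' = Nat.find hex := ⟨_, rfl⟩
  have h1 : PowerSeries.coeff T' F ≠ 0 := by rw [hT']; exact Nat.find_spec hex
  have h2 : ∀ n < T', PowerSeries.coeff n F = 0 := by
    intro n hn
    rw [hT'] at hn
    have := Nat.find_min hex hn
    push Not at this
    exact this
  have h3 : T ≤ T' := by
    by_contra hcon
    push Not at hcon
    exact h1 (hT T' hcon)
  have h4 : 1 ≤ ‖e T'‖ := by
    rw [he]
    show 1 ≤ ‖((PowerSeries.coeff T' F : ℤ) : ℂ)‖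
    rw [Complex.norm_intCast]
    exact_mod_cast Int.one_le_abs h1
  obtain ⟨f, hf⟩ : ∃ f : ℕ → ℝ, f = fun n => ‖e n * (1 / 2 : ℂ) ^ n‖ := ⟨_, rfl⟩
  have hfS : Summable f := by rw [hf, he]; exact hS
  have hf0 : ∀ n, 0 ≤ f n := by intro n; rw [hf]; exact norm_nonneg _
  have hfe : ∀ n, ‖e n‖ = f n * 2 ^ n := by
    intro n
    rw [hf]
    show ‖e n‖ = ‖e n * (1 / 2 : ℂ) ^ n‖ * 2 ^ n
    rw [norm_mul, norm_pow, mul_assoc, ← mul_pow]
    have : ‖(1 / 2 : ℂ)‖ * 2 = 1 := by simp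
    rw [this, one_pow, mul_one]
  obtain ⟨S, hSd⟩ : ∃ S, S = ∑' n, f n := ⟨_, rfl⟩
  have hS0 : 0 ≤ S := by rw [hSd]; exact tsum_nonneg hf0
  obtain ⟨s₀, hs₀⟩ := exists_nat_ge (4 * 2 ^ T' * S)
  refine ⟨‖e T'‖ + 1 / 2, s₀ + 2, by positivity, ?_⟩
  intro s hs v hEV
  have hs2 : (2 : ℝ) ≤ s := by
    have : (s₀ : ℝ) + 2 ≤ s := by exact_mod_cast hs
    have h0 : (0 : ℝ) ≤ s₀ := Nat.cast_nonneg _
    linarith
  have hsS : 4 * 2 ^ T' * S ≤ s := by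
    have : (s₀ : ℝ) + 2 ≤ s := by exact_mod_cast hs
    linarith
  have hspos : (0 : ℝ) < s := by linarith
  obtain ⟨x, hx⟩ : ∃ x : ℝ, x = (s : ℝ)⁻¹ := ⟨_, rfl⟩
  have hx0 : 0 < x := by rw [hx]; positivity
  have hxs : x * s = 1 := by rw [hx]; exact inv_mul_cancel₀ hspos.ne'
  have hx2 : 2 * x ≤ 1 := by nlinarith
  obtain ⟨-, hv⟩ := hEV
  rw [← hx] at hv
  have hv' : HasSum (fun n => e n * (x : ℂ) ^ n) v := by rw [he]; exact hv
  -- remove the zero terms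
  have h5 : HasSum (fun n => e (n + (T' + 1)) * (x : ℂ) ^ (n + (T' + 1))) (v - ∑ i ∈ range (T' + 1), e i * (x : ℂ) ^ i) :=
    (hasSum_nat_add_iff' (T' + 1)).2 hv'
  have h6 : ∑ i ∈ range (T' + 1), e i * (x : ℂ) ^ i = e T' * (x : ℂ) ^ T' := by
    rw [Finset.sum_range_succ, Finset.sum_eq_zero, zero_add]
    intro i hi
    rw [he]
    show ((PowerSeries.coeff i F : ℤ) : ℂ) * _ = 0
    rw [h2 i (mem_range.1 hi)]
    simp
  rw [h6] at h5
  -- the tail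
  have h7 : ∀ n, ‖e (n + (T' + 1)) * (x : ℂ) ^ (n + (T' + 1))‖ ≤ (2 ^ T' * (2 * x) * x ^ T') * f (n + (T' + 1)) := by
    intro n
    rw [norm_mul, norm_pow, Complex.norm_real, Real.norm_eq_abs, abs_of_pos hx0, hfe]
    have e1 : f (n + (T' + 1)) * 2 ^ (n + (T' + 1)) * x ^ (n + (T' + 1)) =
        (2 ^ T' * (2 * x) * x ^ T') * f (n + (T' + 1)) * (2 * x) ^ n := by
      rw [mul_pow]
      ring
    rw [e1]
    have e2 : (2 * x) ^ n ≤ 1 := pow_le_one₀ (by positivity) hx2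
    have e3 : 0 ≤ (2 ^ T' * (2 * x) * x ^ T') * f (n + (T' + 1)) := mul_nonneg (by positivity) (hf0 _)
    nlinarith
  have h8 : Summable (fun n => (2 ^ T' * (2 * x) * x ^ T') * f (n + (T' + 1))) :=
    ((summable_nat_add_iff (T' + 1)).2 hfS).mul_left _
  have h9 : ‖v - e T' * (x : ℂ) ^ T'‖ ≤ (2 ^ T' * (2 * x) * x ^ T') * S := by
    rw [← h5.tsum_eq]
    refine (tsum_of_norm_bounded h8.hasSum h7).trans ?_
    rw [tsum_mul_left]
    refine mul_le_mul_of_nonneg_left ?_ (by positivity)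
    rw [hSd, ← hfS.sum_add_tsum_nat_add (T' + 1)]
    have : 0 ≤ ∑ i ∈ range (T' + 1), f i := Finset.sum_nonneg fun i _ => hf0 i
    linarith
  have hxT : 0 < x ^ T' := by positivity
  have h10 : ‖e T' * (x : ℂ) ^ T'‖ = ‖e T'‖ * x ^ T' := by
    rw [norm_mul, norm_pow, Complex.norm_real, Real.norm_eq_abs, abs_of_pos hx0]
  have h11 : (2 ^ T' * (2 * x) * x ^ T') * S ≤ 1 / 2 * x ^ T' := by
    have e1 : (2 ^ T' * (2 * x)) * S ≤ 1 / 2 := by
      have : 4 * 2 ^ T' * S * x ≤ s * x := mul_le_mul_of_nonneg_right hsS hx0.le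
      rw [mul_comm (s : ℝ) x, hxs] at this
      linarith
    calc (2 ^ T' * (2 * x) * x ^ T') * S = (2 ^ T' * (2 * x)) * S * x ^ T' := by ring
      _ ≤ 1 / 2 * x ^ T' := mul_le_mul_of_nonneg_right e1 hxT.le
  have h12 : ‖v‖ ≤ (‖e T'‖ + 1 / 2) * x ^ T' := by
    have := norm_sub_norm_le v (e T' * (x : ℂ) ^ T')
    rw [h10] at this
    nlinarith
  constructor
  · intro hv0
    rw [hv0, zero_sub, norm_neg, h10] at h9
    nlinarith
  · have hsT : (0 : ℝ) < (s : ℝ) ^ T := by positivity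
    have e1 : x ^ T' * (s : ℝ) ^ T ≤ 1 := by
      calc x ^ T' * (s : ℝ) ^ T ≤ x ^ T' * (s : ℝ) ^ T' :=
            mul_le_mul_of_nonneg_left (pow_le_pow_right₀ (by linarith) h3) hxT.le
        _ = 1 := by rw [← mul_pow, hxs, one_pow]
    calc ‖v‖ * (s : ℝ) ^ T ≤ (‖e T'‖ + 1 / 2) * x ^ T' * (s : ℝ) ^ T := mul_le_mul_of_nonneg_right h12 hsT.le
      _ = (‖e T'‖ + 1 / 2) * (x ^ T' * (s : ℝ) ^ T) := by ring
      _ ≤ (‖e T'‖ + 1 / 2) * 1 := mul_le_mul_of_nonneg_left e1 (by positivity)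
      _ = ‖e T'‖ + 1 / 2 := mul_one _

end Pool.Agent.helper18.HG
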