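import Mathlib

/-!
# MP_33a656_nt: heights of the numbers `(s-1) ∑ s^{-u_m}`

THEOREM. For all `d`, `C`, for all but finitely many pairs `(k, s)`, `k ≥ 3`, `s ≥ 2`, no nonzero integer polynomial of degree
`≤ d` with coefficients `≤ (k s)^C` vanishes at `dens k s`.

RULES. Row `hg:XX`: file `Pool/Agent/<seat>/HG/XX.lean`, `import Pool.Agent.helper18.HG.Spec`, `namespace Pool.Agent.helper18.HG`,
theorem `XX ... : XX_stmt` (hypotheses as in the note), auxiliary lemmas with prefix `XX_`. No double quotes, no extra axioms.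
Report a FALSE statement at once. Everything is Mathlib only.
-/

set_option autoImplicit false

namespace Pool.Agent.helper18.HG

open Finset

/-- `A` contains no `k`-term arithmetic progression with nonzero difference. -/
def APFree (k : ℕ) (A : Finset ℕ) : Prop := ∀ a q : ℕ, 1 ≤ q → ∃ j < k, a + j * q ∉ A

/-- `r_k(L)`: the largest size of a subset of `{0, ..., L-1}` without a `k`-term arithmetic progression. -/
noncomputable def rk (k L : ℕ) : ℕ := sSup {n | ∃ A : Finset ℕ, A ⊆ range L ∧ APFree k A ∧ A.card = n}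

/-- `u_m = min {L ≥ 1 : r_k(L) = m}`. -/
noncomputable def uu (k m : ℕ) : ℕ := sInf {L | 1 ≤ L ∧ rk k L = m}

/-- The number `(s-1) ∑_{m ≥ 1} s^{-u_m}`. -/
noncomputable def dens (k s : ℕ) : ℝ := ((s : ℝ) - 1) * ∑' m : ℕ, ((s : ℝ) ^ uu k (m + 1))⁻¹

/-- The digits `w_n = r_k(n+1) - r_k(n)`. -/
noncomputable def w (k n : ℕ) : ℤ := (rk k (n + 1) : ℤ) - rk k n

/-- The coefficients of `(1-z) ∑ w_n z^n`. -/
noncomputable def cf (k n : ℕ) : ℤ := if n = 0 then w k 0 else w k n - w k (n - 1)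

/-- Eventually periodic. -/
def EvPer (c : ℕ → ℤ) : Prop := ∃ N p : ℕ, 1 ≤ p ∧ ∀ n, N ≤ n → c (n + p) = c n

/-- `F` converges absolutely at `z` with value `v`. -/
def EV (F : PowerSeries ℤ) (z v : ℂ) : Prop :=
  Summable (fun n => ‖((PowerSeries.coeff n F : ℤ) : ℂ) * z ^ n‖) ∧
    HasSum (fun n => ((PowerSeries.coeff n F : ℤ) : ℂ) * z ^ n) v

/-- `A(G, z)` as a power series, for a polynomial `A` in `G` with coefficients polynomials in `z`. -/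
noncomputable def ev (G : PowerSeries ℤ) (A : Polynomial (Polynomial ℤ)) : PowerSeries ℤ :=
  A.eval₂ Polynomial.coeToPowerSeries.ringHom G

/-- `G` is transcendental over `ℤ[z]`. -/
def Trans (G : PowerSeries ℤ) : Prop := ∀ A : Polynomial (Polynomial ℤ), A ≠ 0 → ev G A ≠ 0

/-! ## Block A: the numbers `r_k(L)` -/

/-- (short) The set in `rk` is nonempty (`∅`) and bounded by `L`, so the supremum is attained. `b`: remove the element `L` from an optimal set for `L+1`. `e`: `range L` has fewer than `k` elements and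
the `k` terms of a progression are different (`k ≥ 1`). `f`: a set of `k` elements in `range k` is `range k`, which contains `0, 1, ..., k-1`. -/
def RKB_stmt : Prop := ∀ k : ℕ, 2 ≤ k →
  (∀ L, ∃ A : Finset ℕ, A ⊆ range L ∧ APFree k A ∧ A.card = rk k L) ∧
  (∀ (L : ℕ) (A : Finset ℕ), A ⊆ range L → APFree k A → A.card ≤ rk k L) ∧
  (∀ L, rk k L ≤ rk k (L + 1) ∧ rk k (L + 1) ≤ rk k L + 1) ∧
  (∀ L, L < k → rk k L = L) ∧ rk k k = k - 1

/-- (short, from `RKB`) Translate `A ∩ [a, a+b)` by `-a`. -/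
def WIN_stmt : Prop := ∀ (k : ℕ) (A : Finset ℕ) (a b : ℕ), 2 ≤ k → APFree k A →
  (A.filter (fun x => a ≤ x ∧ x < a + b)).card ≤ rk k b

/-- (short, from `RKB`) `{2^i : i < m}` contains no three term progression with nonzero difference. -/
def UNB_stmt : Prop := ∀ k m : ℕ, 3 ≤ k → m ≤ rk k (2 ^ m)

/-- (short-medium) Van der Waerden, finite form. `Combinatorics.Line.exists_mono_in_high_dimension (Fin k) (Fin r)` gives a finite type `ι`; colour `v : ι → Fin k` with `f (∑ i, (v i : ℕ))`; a monochromatic line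
gives the progression with difference the number of active coordinates (`≥ 1`); all terms are `≤ k * card ι`. (`k = 0` is trivial, for `r = 0` there is no `f`.) -/
def VDW_stmt : Prop := ∀ k r : ℕ, ∃ N : ℕ, ∀ f : ℕ → Fin r, ∃ a q : ℕ, 1 ≤ q ∧ ∀ j < k, a + j * q ≤ N ∧ f (a + j * q) = f a

/-- (medium, from `RKB`, `WIN`, `UNB`, `VDW`) Suppose `w k (n+p) = w k n` for `n ≥ N`. Then `r(L+p) = r(L) + t` for `L ≥ N`, `t = r(N+p) - r(N)` a natural number; `t ≥ 1` by `UNB`. Hence there is a natural number `M` with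
`|p r(L) - t L| ≤ M` for all `L`. Let `b` be a natural number with `t b > 3 M` and let `A ⊆ range L` be optimal (`L` large). Every window `[a, a+b)`, `a + b ≤ L`, meets `A`: the parts of `A` before and after it have at most
`r(a)` and `r(L-a-b)` elements (`WIN`), so `p |A ∩ [a,a+b)| ≥ (tL - M) - (ta + M) - (t(L-a-b) + M) = tb - 3M > 0`. Colour `x` with the least `j < b` such that `x + j ∈ A` (arbitrary if there is none);
`VDW` with `r = b` and `L = N' + b` gives a progression in `A`: contradiction. -/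
def NPE_stmt : Prop := ∀ k : ℕ, 3 ≤ k → ¬ EvPer (w k)

/-- (medium, from `RKB`, `UNB`) `r` is monotone, unbounded, with steps `0, 1`, so for every `m ≥ 1` `L = uu k m ≥ 1` satisfies `r(L) = m`, `r(L-1) = m - 1`, `w k (L-1) = 1`; conversely if `w k n = 1` then `n + 1 = uu k (rk k (n+1))`.
So `m ↦ uu k (m+1) - 1` is an injection with range `{n | w k n = 1}`, and `w k n ∈ {0, 1}`. -/
def SER_stmt : Prop := ∀ k s : ℕ, 3 ≤ k → 2 ≤ s →
  (∀ n, w k n = 0 ∨ w k n = 1) ∧ dens k s = ((s : ℝ) - 1) * ∑' n : ℕ, (w k n : ℝ) * ((s : ℝ) ^ (n + 1))⁻¹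

/-- (short, from `SER`) `(s-1) s^(-n-1) = s^(-n) - s^(-n-1)`; summation by parts (shift of the index). In the form `EV`: the coefficients are bounded by `1` in absolute value, so everything converges absolutely. -/
def CFS_stmt : Prop := ∀ k s : ℕ, 3 ≤ k → 2 ≤ s →
  (∀ n, |cf k n| ≤ 1) ∧ EV (PowerSeries.mk (cf k)) (((s : ℝ)⁻¹ : ℝ) : ℂ) ((dens k s : ℝ) : ℂ)

/-- (short-medium, from `RKB`, `SER`) `1 - dens k s = (s-1) ∑ (1 - w_n) s^(-n-1)`, all terms are `≥ 0`, those with `n < k-1` are `0` and the one with `n = k-1` is `(s-1) s^(-k) > 0`; `(s-1) ∑_{n ≥ k-1} s^(-n-1) = s^(1-k)`. -/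
def DEL_stmt : Prop := ∀ k s : ℕ, 3 ≤ k → 2 ≤ s → 0 < 1 - dens k s ∧ (1 - dens k s) * (s : ℝ) ^ (k - 1) ≤ 1

/-! ## Block B: Fatou's theorem -/

/-- (short-medium) Sums and Cauchy products of absolutely convergent series (`summable_norm_sum_mul_antidiagonal_of_summable_norm`, `tsum_mul_tsum_eq_tsum_sum_antidiagonal_of_summable_norm`), polynomials (finite sums), uniqueness. -/
def EVM_stmt : Prop := ∀ z : ℂ,
  (∀ (F G : PowerSeries ℤ) (u v : ℂ), EV F z u → EV G z v → EV (F + G) z (u + v) ∧ EV (F * G) z (u * v)) ∧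
  (∀ P : Polynomial ℤ, EV (P : PowerSeries ℤ) z (Polynomial.aeval z P)) ∧ (∀ v : ℂ, EV 0 z v → v = 0)

/-- (short, from `EVM`) Induction on the polynomial `A` (`Polynomial.induction_on`). -/
def EVA_stmt : Prop := ∀ (G : PowerSeries ℤ) (z v : ℂ) (A : Polynomial (Polynomial ℤ)), EV G z v →
  EV (ev G A) z (A.sum fun i a => Polynomial.aeval z a * v ^ i)

/-- (short) Discrete Parseval: `∑_j ζ^(j(a-b)) = 0` for `a ≠ b` in `range N`. -/
def PAR_stmt : Prop := ∀ (N : ℕ) (q : ℕ → ℂ), 1 ≤ N →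
  ∑ j ∈ range N, ‖∑ n ∈ range N, q n * Complex.exp (2 * Real.pi * Complex.I * (j * n / N))‖ ^ 2 = N * ∑ n ∈ range N, ‖q n‖ ^ 2

/-- (medium, from `PAR`) Let `|g_n| ≤ M`, `|g(z)| ≤ K` for `|z| < 1`. For `r < 1` take `N` with `M r^N / (1-r) ≤ 1`; the polynomial `q = ∑_{n<N} g_n z^n` satisfies `|q| ≤ K + 1` on `|z| = r`, and `PAR` (with `q n = g_n r^n`) gives
`∑_{n<N} |g_n|² r^(2n) ≤ (K+1)²`. So (`r → 1`) for every `m` the number of `n < m` with `g_n ≠ 0` is at most `(K+1)²`; hence only finitely many `g_n` are nonzero. -/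
def BDD_stmt : Prop := ∀ (G : PowerSeries ℤ) (M K : ℝ), (∀ n, ‖((PowerSeries.coeff n G : ℤ) : ℂ)‖ ≤ M) →
  (∀ z v : ℂ, ‖z‖ < 1 → EV G z v → ‖v‖ ≤ K) → ∃ P : Polynomial ℤ, G = (P : PowerSeries ℤ)

/-- (short-medium) Let `n = natDegree A`; `n ≥ 1` (otherwise `A = C a` and `ev G A = a ≠ 0`, `Polynomial.coe_injective`). Let `a` be the leading coefficient; `∑ A_i a^(n-1-i) Y^i` (`i < n`) `+ Y^n` is monic and vanishes at `a G`
(`Polynomial.integralNormalization`, or directly). -/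
def NRM_stmt : Prop := ∀ (G : PowerSeries ℤ) (A : Polynomial (Polynomial ℤ)), A ≠ 0 → ev G A = 0 →
  ∃ (a : Polynomial ℤ) (Q : Polynomial (Polynomial ℤ)), a ≠ 0 ∧ Q.Monic ∧ 1 ≤ Q.natDegree ∧ ev ((a : PowerSeries ℤ) * G) Q = 0

/-- (medium, from `EVA`, `EVM`) For `|z| < 1` and `EV G z v`: `v^n + ∑_{i<n} b_i(z) v^i = 0`, `n ≥ 1`, with `|b_i(z)| ≤` the sum `B_i` of the absolute values of the coefficients of `b_i`; so `|v| ≤ 1 + ∑ B_i` (if `|v| > 1` divide by `v^(n-1)`). -/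
def MON_stmt : Prop := ∀ (G : PowerSeries ℤ) (Q : Polynomial (Polynomial ℤ)), Q.Monic → 1 ≤ Q.natDegree → ev G Q = 0 →
  ∃ K : ℝ, ∀ z v : ℂ, ‖z‖ < 1 → EV G z v → ‖v‖ ≤ K

/-- (medium) Let `a ≠ 0`, `a G = P`, `|c_n| ≤ M`. Let `ν` be the order of `a` (least index with `a_ν ≠ 0`), `D` its degree. For `n > natDegree P` and `n ≥ D`: `a_ν c_(n-ν) = - ∑_{ν < i ≤ D} a_i c_(n-i)`. So `c_m` is for large `m` a function of
`(c_(m-1), ..., c_(m-(D-ν)))`, which takes finitely many values: by the pigeonhole principle the sequence is eventually periodic. -/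
def REC_stmt : Prop := ∀ (c : ℕ → ℤ) (M : ℤ) (a P : Polynomial ℤ), (∀ n, |c n| ≤ M) → a ≠ 0 →
  (a : PowerSeries ℤ) * PowerSeries.mk c = (P : PowerSeries ℤ) → EvPer c

/-- (short-medium, from `NRM`, `MON`, `BDD`, `REC`) Fatou: if `mk c` is not transcendental take `A ≠ 0` with `ev = 0`; the coefficients of `a * mk c` are bounded by `M ∑ |a_i|`. -/
def FAT_stmt : Prop := ∀ (c : ℕ → ℤ) (M : ℤ), (∀ n, |c n| ≤ M) → ¬ EvPer c → Trans (PowerSeries.mk c)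

/-- (short, from `SER`, `NPE`, `CFS`, `FAT`) If `cf k` has period `p` from `N` on, then `w_(n+p) - w_n` is constant for `n ≥ N`, and it is `0` because `w ∈ {0, 1}` (`w_(n+2p) = w_n + 2t`, etc.); contradiction to `NPE`. -/
def TRC_stmt : Prop := ∀ k : ℕ, 3 ≤ k → Trans (PowerSeries.mk (cf k))

/-! ## Block C: heights -/

/-- (medium) Linear algebra: `(D+1)(E+1)` unknown integers `a_ij` (`A = ∑ a_ij z^j Y^i`), `(D+1)(E+1) - 1` homogeneous linear equations with integer coefficients. A nonzero solution over `ℚ`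
(`LinearMap.exists_ne_zero_of_finrank_lt` or `Matrix.exists_mulVec_eq_zero_iff` or Siegel's lemma `Int.Matrix.exists_ne_zero_int_vec_norm_le`), cleared of denominators. -/
def AUX_stmt : Prop := ∀ (G : PowerSeries ℤ) (D E : ℕ), ∃ A : Polynomial (Polynomial ℤ), A ≠ 0 ∧ A.natDegree ≤ D ∧
  (∀ i, (A.coeff i).natDegree ≤ E) ∧ ∀ n, n < (D + 1) * (E + 1) - 1 → PowerSeries.coeff n (ev G A) = 0

/-- (medium) `F = ∑_{n ≥ T'} e_n z^n`, `e_T' ≠ 0`, `T' ≥ T`, and `S = ∑ |e_n| 2^(-n)` converges. For `s ≥ 2`: `s^T' v = e_T' + ∑_{n > T'} e_n s^(T'-n)`, and the last sum is at most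
`(2/s) ∑_{n>T'} |e_n| 2^(T'-n) ≤ (2/s) 2^T' S`, which is `≤ 1/2` for large `s`; so `1/2 ≤ s^T' |v| ≤ |e_T'| + 1/2`. -/
def ORD_stmt : Prop := ∀ (F : PowerSeries ℤ) (T : ℕ), F ≠ 0 → (∀ n < T, PowerSeries.coeff n F = 0) → (∃ v₀, EV F (1 / 2) v₀) →
  ∃ (K : ℝ) (s₀ : ℕ), 0 < K ∧ ∀ s : ℕ, s₀ ≤ s → ∀ v : ℂ, EV F (((s : ℝ)⁻¹ : ℝ) : ℂ) v → v ≠ 0 ∧ ‖v‖ * (s : ℝ) ^ T ≤ K

/-- (medium) Liouville. `P` has an irreducible factor `P₁` in `ℤ[X]` with `P₁(α) = 0` (`ℤ[X]` is factorial), `P = P₁ R`; `P₁` is primitive of positive degree, so irreducible over `ℚ` (Gauss), and it does not divide `B` over `ℚ`; so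
`Res(P₁, B)` is a nonzero integer (`Polynomial.resultant_ne_zero`), and `Res = lc^(deg B) ∏ B(α_i)` over the roots of `P₁` (`Polynomial.resultant_eq_prod_eval`), one of them `α`. `|B(α_i)| ≤ (D+1) L max(1,|α_i|)^D`, so
`1 ≤ |B(α)| ((D+1) L)^(deg P₁ - 1) M(P₁)^D`, `M` the Mahler measure (`Polynomial.mahlerMeasure_eq_leadingCoeff_mul_prod_roots`); `M(P₁) ≤ M(P₁) M(R) = M(P) ≤ ∑ |coeff| ≤ (d+1) H`
(`Polynomial.one_le_mahlerMeasure_of_ne_zero` for `R`, `Polynomial.mahlerMeasure_mul`, `Polynomial.mahlerMeasure_le_sum_norm_coeff`). -/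
def LIO_stmt : Prop := ∀ (P B : Polynomial ℤ) (α : ℂ) (d D : ℕ) (H L : ℝ), P ≠ 0 → Polynomial.aeval α P = 0 → Polynomial.aeval α B ≠ 0 →
  P.natDegree ≤ d → B.natDegree ≤ D → 1 ≤ H → 1 ≤ L → (∀ i, |(P.coeff i : ℝ)| ≤ H) → (∀ i, |(B.coeff i : ℝ)| ≤ L) →
  1 ≤ ‖Polynomial.aeval α B‖ * (((D : ℝ) + 1) * L) ^ d * (((d : ℝ) + 1) * H) ^ D

/-- (medium, from `EVM`, `EVA`, `AUX`, `ORD`, `LIO`) Take `D = 2d + 2`, `E = 2 C + 2` (`+ something`), `A` from `AUX`, `F = ev G A ≠ 0`, `T = (D+1)(E+1) - 1`. At `z = 1/s`, with `B(x) = s^E A(x, 1/s) ∈ ℤ[x]` (degree `≤ D`, coefficients `≤ K₂ s^E`):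
`aeval v B = s^E F(1/s)`, nonzero and `≤ K₃ s^(E-T)` for large `s`. If `P(v) = 0`, `LIO` gives `1 ≤ K₄ s^(E-T+Ed+CD)`, and the exponent is negative:
`T = DE + D + E`, so it is `Ed + CD - DE - D < 0` as `E(D - d) ≥ E D/2 ≥ (C+1) D`. `EV G (1/2) _` holds since `|c_n| ≤ M`. -/
def FIX_stmt : Prop := ∀ (c : ℕ → ℤ) (M : ℤ), (∀ n, |c n| ≤ M) → Trans (PowerSeries.mk c) → ∀ (d C : ℕ) (K : ℝ), 1 ≤ K →
  ∃ s₀ : ℕ, ∀ s : ℕ, s₀ ≤ s → ∀ v : ℂ, EV (PowerSeries.mk c) (((s : ℝ)⁻¹ : ℝ) : ℂ) v → ∀ P : Polynomial ℤ, P ≠ 0 → P.natDegree ≤ d →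
    (∀ i, |(P.coeff i : ℝ)| ≤ K * (s : ℝ) ^ C) → Polynomial.aeval v P ≠ 0

/-- (short-medium) Let `x = 1 - δ`. Taylor expansion of `P` at `1` (`Polynomial.taylor 1 P`): `P(1 - δ) = ∑_j q_j (-δ)^j` with integers `q_j`, `|q_j| ≤ ∑_i |P_i| choose i j ≤ (d+1) 2^d H`, not all `0`. With `m` the least index with
`q_m ≠ 0`: `|P(1-δ)| ≥ δ^m (1 - d (d+1) 2^d H δ)` (as `δ ≤ 1`), positive. -/
def TAY_stmt : Prop := ∀ (P : Polynomial ℤ) (d : ℕ) (H δ : ℝ), P ≠ 0 → P.natDegree ≤ d → (∀ i, |(P.coeff i : ℝ)| ≤ H) → 0 < δ → δ ≤ 1 →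
  ((d : ℝ) + 1) ^ 2 * 2 ^ d * H * δ < 1 → Polynomial.aeval (1 - δ) P ≠ 0

/-- (short-medium) `(k s)^C s^(1-k) = k^C s^(C+1-k) ≤ k^C 2^(C+1-k)` for `k ≥ C + 1`, `s ≥ 2`, and it tends to `0` for `k → ∞`. -/
def GRW_stmt : Prop := ∀ (C : ℕ) (A : ℝ), 0 < A → ∃ k₀ : ℕ, ∀ k : ℕ, k₀ ≤ k → ∀ s : ℕ, 2 ≤ s →
  A * ((k : ℝ) * s) ^ C < (s : ℝ) ^ (k - 1)

/-- (short-medium, from `CFS`, `DEL`, `TRC`, `FIX`, `TAY`, `GRW`) For `k ≥ k₀`: `TAY` with `δ = 1 - dens k s ≤ s^(1-k)` and `H = (ks)^C` (`GRW` with `A = (d+1)² 2^d`). For each of the finitely many `k < k₀`: `FIX` with `K = k^C`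
(`cf k`, `TRC`) excludes all `s ≥ s₀(k)`. So all bad pairs lie in a finite set. -/
def FIN_stmt : Prop := ∀ d C : ℕ, {q : ℕ × ℕ | 3 ≤ q.1 ∧ 2 ≤ q.2 ∧ ∃ P : Polynomial ℤ, P ≠ 0 ∧ P.natDegree ≤ d ∧
  (∀ i, |P.coeff i| ≤ ((q.1 * q.2) ^ C : ℕ)) ∧ Polynomial.aeval (dens q.1 q.2) P = 0}.Finite

end Pool.Agent.helper18.HG
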