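import Pool.Agent.helper11.HG.MON
import Pool.Agent.helper2.HG.DEL
import Pool.Agent.helper22.HG.VDW
import Pool.Agent.helper23.HG.GRW
import Pool.Agent.helper25.HG.LIO
import Pool.Agent.helper27.HG.WIN
import Pool.Agent.helper29.HG.NRM
import Pool.Agent.helper30.HG.CFS
import Pool.Agent.helper47.HG.RKB
import Pool.Agent.helper54.HG.PAR
import Pool.Agent.helper58.HG.AUXL
import Pool.Agent.helper59.HG.BDD
import Pool.Agent.helper61.HG.NPE
import Pool.Agent.helper64.HG.FAT
import Pool.Agent.helper69.HG.REC
import Pool.Agent.helper76.HG.UNB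
import Pool.Agent.helper77.HG.TRC
import Pool.Agent.helper80.HG.FIN
import Pool.Agent.helper89.HG.SER
import Pool.Agent.helper98.HG.FIX
import Pool.Agent.helper99.HG.EVA
import Pool.Agent.helper26.HG.EVM
import Pool.Agent.helper18.HG.ORD
import Pool.Agent.helper59.HG.TAY

/-!
# Project hg: assembly
-/

set_option autoImplicit false

namespace Pool.Agent.helper18.HG.All

theorem unb : UNB_stmt := UNB RKB

theorem ser : SER_stmt := SER RKB unb

theorem cfs : CFS_stmt := CFS ser

theorem eva : EVA_stmt := EVA EVM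

theorem npe : NPE_stmt := NPE RKB (WIN RKB) unb VDW

theorem fat : FAT_stmt := FAT NRM (MON eva EVM) (BDD PAR) REC

theorem trc : TRC_stmt := TRC ser npe cfs fat

theorem fix : FIX_stmt := FIX EVM eva AUX ORD LIO

theorem final : FIN_stmt := FIN cfs (DEL RKB ser) trc fix TAY GRW

end Pool.Agent.helper18.HG.All
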